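import Mathlib
import Pool.Agent.Helper63.PropB.AlmostPoly

/-!
# Lindenstrauss property B for spaces with an almost everywhere flat unit sphere: definitions and
the intermediate statements (packets)
-/

set_option autoImplicit false

open MeasureTheory Measure

namespace Pool.Agent.Helper18.PB

universe u v

/-- The unit sphere is flat of order `s` at `p`: some supporting hyperplane `p + ker w` satisfies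
`‖p + h‖ ≤ 1 + C ‖h‖ ^ s`. -/
def FlatPt {Y : Type v} [NormedAddCommGroup Y] [NormedSpace ℝ Y] (s : ℝ) (p : Y) : Prop :=
  ∃ w : Y →L[ℝ] ℝ, ‖w‖ ≤ 1 ∧ w p = 1 ∧ ∃ C : ℝ, ∀ h : Y, w h = 0 → ‖p + h‖ ≤ 1 + C * ‖h‖ ^ s

/-- A1. Ekeland's principle on the unit ball from a given point, with the separating functional. -/
def GA : Prop :=
  ∀ (X : Type u) [NormedAddCommGroup X] [NormedSpace ℝ X] [CompleteSpace X]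
    (φ : X →L[ℝ] ℝ) (l : ℝ) (x : X), 0 < l → ‖x‖ ≤ 1 →
    ∃ (x' : X) (ω : X →L[ℝ] ℝ), ‖x'‖ ≤ 1 ∧ ‖ω‖ ≤ l ∧ l * ‖x' - x‖ ≤ φ (x' - x) ∧
      ∀ y : X, ‖y‖ ≤ 1 → (φ - ω) (y - x') ≤ 0

/-- A2. The basic stage: `N` small tilts and the pigeonhole principle. -/
def GB : Prop :=
  ∀ (X : Type u) [NormedAddCommGroup X] [NormedSpace ℝ X] [CompleteSpace X]
    (f g : X →L[ℝ] ℝ) (x : X) (e θ η : ℝ) (N : ℕ), ‖x‖ ≤ 1 → 0 < e → 0 < θ → 0 < η → 1 ≤ N →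
    (∀ y : X, ‖y‖ ≤ 1 → f (y - x) + θ * |g (y - x)| ≤ e) →
    ∃ (g' ω : X →L[ℝ] ℝ) (x' : X) (t : ℝ), ‖x'‖ ≤ 1 ∧ 0 ≤ t ∧ t ≤ θ / 4 ∧ ‖ω‖ ≤ η ∧
      ‖g' - g‖ ≤ η ∧ θ * η * ‖x' - x‖ ≤ 17 * e ∧
      ∀ y : X, ‖y‖ ≤ 1 →
        (f + t • (g - ω)) (y - x') + θ / (16 * N) * |g' (y - x')| ≤ 3 * e / (N : ℝ) ^ 2

/-- A3. One direction, keeping the other directions (collected in the seminorm `R`). -/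
def GD : Prop :=
  ∀ (X : Type u) [NormedAddCommGroup X] [NormedSpace ℝ X] [CompleteSpace X]
    (f g : X →L[ℝ] ℝ) (R : Seminorm ℝ X) (x : X) (e θ σ : ℝ) (N : ℕ), ‖x‖ ≤ 1 → 0 < e → 0 < θ →
    0 < σ → σ ≤ 1 → 1 ≤ N →
    (∀ y : X, ‖y‖ ≤ 1 → f (y - x) + θ * |g (y - x)| + R (y - x) ≤ e) →
    ∃ (g' ω : X →L[ℝ] ℝ) (x' : X) (t : ℝ), ‖x'‖ ≤ 1 ∧ 0 ≤ t ∧ t ≤ θ / 4 ∧
      ‖ω‖ ≤ 26 * (e / θ) / σ ∧ ‖g' - g‖ ≤ 26 * (e / θ) / σ ∧ ‖x' - x‖ ≤ σ ∧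
      ∀ y : X, ‖y‖ ≤ 1 →
        (f + t • (g - ω)) (y - x') + θ / (32 * N) * |g' (y - x')|
          + σ / (9 * (N : ℝ) ^ 2) * R (y - x') ≤ 6 * e / (N : ℝ) ^ 2

/-- A4. A full cycle through the `M + 1` directions. -/
def GCyc : Prop :=
  ∀ (X : Type u) [NormedAddCommGroup X] [NormedSpace ℝ X] [CompleteSpace X] (M : ℕ)
    (f : X →L[ℝ] ℝ) (g : Fin (M + 1) → X →L[ℝ] ℝ) (x : X) (e θ σ : ℝ) (N : ℕ), ‖x‖ ≤ 1 →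
    0 < e → 0 < θ → 0 < σ → σ ≤ 1 → 1 ≤ N →
    (∀ y : X, ‖y‖ ≤ 1 → f (y - x) + θ * ∑ k, |g k (y - x)| ≤ e) →
    ∃ (g' ω : Fin (M + 1) → X →L[ℝ] ℝ) (x' : X) (t : Fin (M + 1) → ℝ), ‖x'‖ ≤ 1 ∧
      (∀ k, 0 ≤ t k ∧ t k ≤ θ / 4) ∧
      (∀ k, ‖ω k‖ ≤ 26 * 54 ^ M * (e / θ) / σ ^ (M + 1)) ∧
      (∀ k, ‖g' k - g k‖ ≤ 26 * 54 ^ M * (e / θ) / σ ^ (M + 1)) ∧
      ‖x' - x‖ ≤ (M + 1) * σ ∧
      ∀ y : X, ‖y‖ ≤ 1 →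
        (f + ∑ k, t k • (g k - ω k)) (y - x')
          + θ / (32 * N) * (σ / (9 * (N : ℝ) ^ 2)) ^ M * ∑ k, |g' k (y - x')|
          ≤ e * (6 / (N : ℝ) ^ 2) ^ (M + 1)

/-- A5. The inequality between a stage and the limit. -/
def GLim : Prop :=
  ∀ (X : Type u) [NormedAddCommGroup X] [NormedSpace ℝ X] (m : ℕ) (f F r : X →L[ℝ] ℝ)
    (g G : Fin m → X →L[ℝ] ℝ) (T : Fin m → ℝ) (x z : X) (e θ E : ℝ), 1 ≤ m → ‖x‖ ≤ 1 → ‖z‖ ≤ 1 →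
    0 < θ → 0 ≤ E → e ≤ θ * E →
    (∀ y : X, ‖y‖ ≤ 1 → f (y - x) + θ * ∑ k, |g k (y - x)| ≤ e) →
    F = f + (∑ k, T k • g k) - r → (∀ k, 0 ≤ T k ∧ T k ≤ θ / 3) → ‖r‖ ≤ m * (θ * E) →
    (∀ k, ‖G k - g k‖ ≤ E) → (∀ y : X, ‖y‖ ≤ 1 → F (y - z) ≤ 0) →
    ∀ y : X, ‖y‖ ≤ 1 → 22 * m * E ≤ ∑ k, |G k (y - z)| →
      F (y - z) + θ / 3 * ∑ k, |G k (y - z)| ≤ 0

/-- `∏_{l < c} 192 * 54 ^ M / (N_l σ_l ^ M)` -/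
noncomputable def PiP (M : ℕ) (N : ℕ → ℕ) (σ : ℕ → ℝ) (c : ℕ) : ℝ :=
  ∏ l ∈ Finset.range c, (192 * 54 ^ M / (N l * σ l ^ M))

/-- `∏_{l < c} (1 / (32 N_l)) (σ_l / (9 N_l²)) ^ M` -/
noncomputable def ThP (M : ℕ) (N : ℕ → ℕ) (σ : ℕ → ℝ) (c : ℕ) : ℝ :=
  ∏ l ∈ Finset.range c, (1 / (32 * N l) * (σ l / (9 * (N l : ℝ) ^ 2)) ^ M)

/-- A6. Choice of the parameters. -/
def GP : Prop :=
  ∀ (M : ℕ) (s : ℝ), 2 * ((M : ℝ) + 1) < s →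
    ∃ (N : ℕ → ℕ) (σ : ℕ → ℝ) (S : ℝ), (∀ c, 1 ≤ N c) ∧ (∀ c, 0 < σ c ∧ σ c ≤ 1) ∧
      Summable σ ∧ 0 < S ∧
      (∀ c, PiP M N σ (c + 1) / σ (c + 1) ^ (M + 1) ≤ 1 / 2 * (PiP M N σ c / σ c ^ (M + 1))) ∧
      ∀ c, (PiP M N σ c / σ c ^ (M + 1)) ^ (s - 1) ≤ S * ThP M N σ (c + 1)

/-- A7. The iteration scheme. -/
def GS : Prop :=
  ∀ (X : Type u) [NormedAddCommGroup X] [NormedSpace ℝ X] [CompleteSpace X] (M : ℕ)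
    (f : X →L[ℝ] ℝ) (g : Fin (M + 1) → X →L[ℝ] ℝ) (κ s C b ρ : ℝ), 0 < κ →
    2 * ((M : ℝ) + 1) < s → 0 < C → 0 < b → C * b ^ (s - 2) ≤ κ / (33 * ((M : ℝ) + 1)) → 0 < ρ →
    (∀ y : X, ‖y‖ ≤ 1 → f y + κ * (∑ k, |g k y|) ^ 2 ≤ 1) →
    (∀ δ : ℝ, 0 < δ → ∃ x : X, ‖x‖ ≤ 1 ∧ 1 - δ < f x) →
    ∃ (F : X →L[ℝ] ℝ) (G : Fin (M + 1) → X →L[ℝ] ℝ) (z : X), ‖z‖ ≤ 1 ∧ ‖F - f‖ ≤ ρ ∧
      (∀ k, ‖G k - g k‖ ≤ ρ) ∧ (∀ y : X, ‖y‖ ≤ 1 → F (y - z) ≤ 0) ∧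
      ∀ y : X, ‖y‖ ≤ 1 → ∑ k, |G k (y - z)| ≤ b →
        F (y - z) + C * (∑ k, |G k (y - z)|) ^ s ≤ 0

/-- A8. From the scheme to a norm attaining operator. -/
def GFin : Prop :=
  ∀ (X : Type u) [NormedAddCommGroup X] [NormedSpace ℝ X] [CompleteSpace X]
    (Y : Type v) [NormedAddCommGroup Y] [NormedSpace ℝ Y] [FiniteDimensional ℝ Y]
    (T : X →L[ℝ] Y) (p : Y) (κ s ρ : ℝ), 2 ≤ Module.finrank ℝ Y → ‖p‖ = 1 → 0 < κ → 0 < ρ →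
    (∀ x : X, ‖x‖ ≤ 1 → ‖T x‖ ≤ 1 - κ * min ‖T x - p‖ ‖T x + p‖ ^ 2) →
    (∀ δ : ℝ, 0 < δ → ∃ x : X, ‖x‖ ≤ 1 ∧ ‖T x - p‖ < δ) →
    2 * ((Module.finrank ℝ Y : ℝ) - 1) < s → FlatPt s p →
    ∃ T' : X →L[ℝ] Y, ‖T' - T‖ ≤ ρ ∧ Helper63.PropB.NormAttaining T'

/-- E1. The quadratic gap. -/
def GGap : Prop :=
  ∀ (Y : Type v) [NormedAddCommGroup Y] [NormedSpace ℝ Y] [FiniteDimensional ℝ Y] (d : ℕ)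
    (τ : (Y →L[ℝ] Y) ≃L[ℝ] EuclideanSpace ℝ (Fin d)) (C : Set Y) (A : Y →L[ℝ] Y) (K r : ℝ)
    (v : EuclideanSpace ℝ (Fin d)) (z : Y), Bornology.IsBounded C →
    ‖A - ContinuousLinearMap.id ℝ Y‖ ≤ 1 / 2 → 0 < K → 0 < r → K * r ^ 2 ≤ 1 / 2 → ‖v‖ < r →
    ‖τ.symm v‖ ≤ 1 / 2 → z ∈ C → z ≠ 0 →
    (∀ v' : EuclideanSpace ℝ (Fin d), ‖v'‖ ≤ r → ∀ z' ∈ C,
      (1 - K * ‖v'‖ ^ 2) * ‖A (z' + τ.symm v' z')‖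
        ≤ (1 - K * ‖v‖ ^ 2) * ‖A (z + τ.symm v z)‖) →
    ∃ κ : ℝ, 0 < κ ∧ ∀ z' ∈ C, ‖A (z' + τ.symm v z')‖ ≤ ‖A (z + τ.symm v z)‖ -
      κ * min ‖A (z' + τ.symm v z') - A (z + τ.symm v z)‖
        ‖A (z' + τ.symm v z') + A (z + τ.symm v z)‖ ^ 2

/-- E2. Contact with the sphere outside a null set, with a quadratic gap. -/
def GInit : Prop :=
  ∀ (X : Type u) [NormedAddCommGroup X] [NormedSpace ℝ X]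
    (Y : Type v) [NormedAddCommGroup Y] [NormedSpace ℝ Y] [FiniteDimensional ℝ Y]
    [MeasurableSpace Y] [BorelSpace Y] (T : X →L[ℝ] Y) (Z : Set Y) (ρ : ℝ), T ≠ 0 → 0 < ρ →
    μH[(Module.finrank ℝ Y : ℝ) - 1] Z = 0 →
    ∃ (A : Y →L[ℝ] Y) (p : Y) (m κ : ℝ), ‖A - ContinuousLinearMap.id ℝ Y‖ < ρ ∧ ‖p‖ = 1 ∧
      p ∉ Z ∧ 0 < m ∧ 0 < κ ∧
      (∀ x : X, ‖x‖ ≤ 1 → ‖A (T x)‖ ≤ m - κ * min ‖A (T x) - m • p‖ ‖A (T x) + m • p‖ ^ 2) ∧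
      ∀ δ : ℝ, 0 < δ → ∃ x : X, ‖x‖ ≤ 1 ∧ ‖A (T x) - m • p‖ < δ

/-- F1. A null cone meets the sphere in a null set. -/
def GCone : Prop :=
  ∀ (Y : Type v) [NormedAddCommGroup Y] [NormedSpace ℝ Y] [FiniteDimensional ℝ Y]
    [MeasurableSpace Y] [BorelSpace Y] (μ : Measure Y) [μ.IsAddHaarMeasure] (Z : Set Y),
    1 ≤ Module.finrank ℝ Y → (∀ z ∈ Z, ∀ t : ℝ, 0 < t → t • z ∈ Z) → μ Z = 0 →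
    μH[(Module.finrank ℝ Y : ℝ) - 1] (Z ∩ Metric.sphere (0 : Y) 1) = 0

/-- the norm `max_i |⟨b_i, x⟩| + ∑ c_k |⟨a_k, x⟩|` -/
noncomputable def nrm {n M : ℕ} (a : ℕ → EuclideanSpace ℝ (Fin n)) (c : ℕ → ℝ)
    (b : Fin M → EuclideanSpace ℝ (Fin n)) (x : EuclideanSpace ℝ (Fin n)) : ℝ :=
  ‖(fun i : Fin M => (inner ℝ (b i) x : ℝ))‖ + ∑' k, c k * |inner ℝ (a k) x|

/-- F2. Existence of the space with the norm `nrm a c b`. -/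
def GEx : Prop :=
  ∀ (n M : ℕ) (a : ℕ → EuclideanSpace ℝ (Fin n)) (c : ℕ → ℝ)
    (b : Fin M → EuclideanSpace ℝ (Fin n)), (∀ k, 0 < c k) → DenseRange a →
    Summable (fun k => c k * ‖a k‖) →
    ∃ (Y : Type) (_ : NormedAddCommGroup Y) (_ : NormedSpace ℝ Y)
      (L : EuclideanSpace ℝ (Fin n) ≃ₗ[ℝ] Y), ∀ x, ‖L x‖ = nrm a c b x

/-- F3. Strict convexity. -/
def GStrict : Prop :=
  ∀ (n M : ℕ) (a : ℕ → EuclideanSpace ℝ (Fin n)) (c : ℕ → ℝ)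
    (b : Fin M → EuclideanSpace ℝ (Fin n)), (∀ k, 0 < c k) → DenseRange a →
    Summable (fun k => c k * ‖a k‖) →
    ∀ (Y : Type) [NormedAddCommGroup Y] [NormedSpace ℝ Y]
      (L : EuclideanSpace ℝ (Fin n) ≃ₗ[ℝ] Y), (∀ x, ‖L x‖ = nrm a c b x) →
      StrictConvexSpace ℝ Y

/-- the good points of the sphere -/
def GoodX {n M : ℕ} (a : ℕ → EuclideanSpace ℝ (Fin n)) (δ : ℕ → ℝ)
    (b : Fin M → EuclideanSpace ℝ (Fin n)) (x : EuclideanSpace ℝ (Fin n)) : Prop :=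
  (∀ k, a k ≠ 0 → inner ℝ (a k) x ≠ 0) ∧
    (∃ k₀, ∀ k ≥ k₀, a k ≠ 0 → δ k * ‖x‖ ≤ |inner ℝ (a k) x|) ∧
    (∀ i, b i ≠ 0 → inner ℝ (b i) x ≠ 0) ∧
    ∀ i j, |inner ℝ (b i) x| = |inner ℝ (b j) x| → b i = b j ∨ b i = -b j

/-- F4. Flatness at the good points. -/
def GFlat : Prop :=
  ∀ (n M : ℕ) (a : ℕ → EuclideanSpace ℝ (Fin n)) (c δ : ℕ → ℝ)
    (b : Fin M → EuclideanSpace ℝ (Fin n)), (∀ k, 0 < δ k ∧ δ k ≤ 1) →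
    (∀ k, 0 < c k ∧ c k ≤ (1 / 2) ^ k * (δ k / (1 + ‖a k‖)) ^ (k + 1)) →
    ∀ (Y : Type) [NormedAddCommGroup Y] [NormedSpace ℝ Y]
      (L : EuclideanSpace ℝ (Fin n) ≃ₗ[ℝ] Y), (∀ x, ‖L x‖ = nrm a c b x) →
      ∀ x, ‖L x‖ = 1 → GoodX a δ b x → ∀ s : ℝ, 1 ≤ s → FlatPt s (L x)

/-- F5. Almost every point is good (Borel–Cantelli). -/
def GDelta : Prop :=
  ∀ (n M : ℕ) (a : ℕ → EuclideanSpace ℝ (Fin n)) (b : Fin M → EuclideanSpace ℝ (Fin n)), 1 ≤ n →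
    ∃ δ : ℕ → ℝ, (∀ k, 0 < δ k ∧ δ k ≤ 1) ∧
      (volume : Measure (EuclideanSpace ℝ (Fin n))) {x | ¬ GoodX a δ b x} = 0

/-- F6. Polyhedral approximation of a norm. -/
def GPoly : Prop :=
  ∀ (n : ℕ) (Y : Type v) [NormedAddCommGroup Y] [NormedSpace ℝ Y]
    (L : EuclideanSpace ℝ (Fin n) ≃L[ℝ] Y) (ε : ℝ), 0 < ε →
    ∃ (M : ℕ) (b : Fin M → EuclideanSpace ℝ (Fin n)), ∀ x : EuclideanSpace ℝ (Fin n),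
      (1 - ε) * ‖L x‖ ≤ ‖(fun i : Fin M => (inner ℝ (b i) x : ℝ))‖ ∧
      ‖(fun i : Fin M => (inner ℝ (b i) x : ℝ))‖ ≤ ‖L x‖

/-- Final 1: the criterion. -/
def Final1 : Prop :=
  ∀ (Y : Type v) [NormedAddCommGroup Y] [NormedSpace ℝ Y] [FiniteDimensional ℝ Y]
    [MeasurableSpace Y] [BorelSpace Y],
    μH[(Module.finrank ℝ Y : ℝ) - 1]
      {p : Y | ‖p‖ = 1 ∧ ¬ ∃ s : ℝ, 2 * ((Module.finrank ℝ Y : ℝ) - 1) < s ∧ FlatPt s p} = 0 →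
    Helper63.PropB.PropertyB.{u, v} Y

/-- Final 2: strictly convex examples, close to every finite dimensional space. -/
def Final2 : Prop :=
  ∀ (Y₀ : Type v) [NormedAddCommGroup Y₀] [NormedSpace ℝ Y₀] [FiniteDimensional ℝ Y₀]
    [Nontrivial Y₀] (ε : ℝ), 0 < ε →
    ∃ (Y : Type) (_ : NormedAddCommGroup Y) (_ : NormedSpace ℝ Y) (S : Y₀ ≃L[ℝ] Y),
      (∀ y, (1 - ε) * ‖y‖ ≤ ‖S y‖ ∧ ‖S y‖ ≤ (1 + ε) * ‖y‖) ∧ StrictConvexSpace ℝ Y ∧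
      Helper63.PropB.PropertyB.{u, 0} Y

end Pool.Agent.Helper18.PB
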