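import Mathlib
import Pool.Agent.Helper18.PB.Defs

/-!
# Property B: assembly of the two final theorems
-/

set_option autoImplicit false

open MeasureTheory Measure

namespace Pool.Agent.Helper18.PB

universe u v

open Helper63.PropB in
theorem final1 (hI : GInit.{u, v}) (hF : GFin.{u, v}) : Final1.{u, v} := by
  intro Y _ _ _ _ _ hZ
  by_cases hn : 2 ≤ Module.finrank ℝ Y
  swap
  · refine propertyB_of_ae_facet ?_
    have hempty : {y : Y | ‖y‖ = 1 ∧ ¬ InFacet y} = ∅ := by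
      ext y
      simp only [Set.mem_setOf_eq, Set.mem_empty_iff_false, iff_false, not_and, not_not]
      intro hy
      have hy0 : y ≠ 0 := by
        intro h
        rw [h, norm_zero] at hy
        exact zero_ne_one hy
      refine ⟨{y}, convex_singleton y, ?_, rfl, ?_⟩
      · rw [Set.singleton_subset_iff, mem_sphere_zero_iff_norm]
        exact hy
      · have h1 : Module.finrank ℝ Y = 1 := by
          have h2 : 0 < Module.finrank ℝ Y := by
            haveI : Nontrivial Y := ⟨y, 0, hy0⟩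
            exact Module.finrank_pos
          omega
        apply Submodule.eq_top_of_finrank_eq
        rw [finrank_span_singleton hy0, h1]
    rw [hempty]
    exact measure_empty
  intro X _ _ _ _
  rw [Metric.dense_iff]
  intro T r hr
  rcases eq_or_ne T 0 with h0 | h0
  · subst h0
    obtain ⟨x, hx⟩ := exists_norm_eq X (zero_le_one)
    exact ⟨0, Metric.mem_ball_self hr, ⟨x, hx, by simp⟩⟩
  have hTpos : 0 < ‖T‖ := norm_pos_iff.2 h0
  obtain ⟨A, p, m, κ, hA, hp, hpZ, hm, hκ, hgap, happ⟩ :=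
    hI X Y T _ (r / (2 * ‖T‖)) h0 (by positivity) hZ
  obtain ⟨s, hs, hflat⟩ : ∃ s : ℝ, 2 * ((Module.finrank ℝ Y : ℝ) - 1) < s ∧ FlatPt s p := by
    by_contra hcon
    exact hpZ ⟨hp, hcon⟩
  have hsub : ∀ x : X, A (T x) - m • p = m • ((m⁻¹ • A.comp T) x - p) := by
    intro x
    simp only [_root_.smul_apply, ContinuousLinearMap.comp_apply, smul_sub, smul_smul,
      mul_inv_cancel₀ hm.ne', one_smul]
  have hadd : ∀ x : X, A (T x) + m • p = m • ((m⁻¹ • A.comp T) x + p) := by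
    intro x
    simp only [_root_.smul_apply, ContinuousLinearMap.comp_apply, smul_add, smul_smul,
      mul_inv_cancel₀ hm.ne', one_smul]
  have hnsub : ∀ x : X, ‖A (T x) - m • p‖ = m * ‖(m⁻¹ • A.comp T) x - p‖ := by
    intro x
    rw [hsub, norm_smul, Real.norm_eq_abs, abs_of_pos hm]
  have hnadd : ∀ x : X, ‖A (T x) + m • p‖ = m * ‖(m⁻¹ • A.comp T) x + p‖ := by
    intro x
    rw [hadd, norm_smul, Real.norm_eq_abs, abs_of_pos hm]
  obtain ⟨T', hT', x₀, hx₀, hx₀'⟩ := hF X Y (m⁻¹ • A.comp T) p (κ * m) s (r / (4 * m)) hn hp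
    (by positivity) (by positivity) (by
      intro x hx
      have h1 := hgap x hx
      rw [hnsub, hnadd, ← mul_min_of_nonneg _ _ hm.le] at h1
      have h2 : ‖(m⁻¹ • A.comp T) x‖ = m⁻¹ * ‖A (T x)‖ := by
        rw [_root_.smul_apply, norm_smul, Real.norm_eq_abs,
          abs_of_pos (inv_pos.2 hm)]
        rfl
      rw [h2, inv_mul_le_iff₀ hm]
      refine h1.trans (le_of_eq ?_)
      ring) (by
      intro δ hδ
      obtain ⟨x, hx, hx'⟩ := happ (m * δ) (by positivity)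
      refine ⟨x, hx, ?_⟩
      rw [hnsub] at hx'
      exact lt_of_mul_lt_mul_left hx' hm.le) hs hflat
  refine ⟨m • T', ?_, ⟨x₀, hx₀, ?_⟩⟩
  · rw [Metric.mem_ball, dist_eq_norm]
    have h1 : m • T' - T = m • (T' - m⁻¹ • A.comp T)
        + (A - ContinuousLinearMap.id ℝ Y).comp T := by
      ext x
      simp only [_root_.sub_apply, _root_.smul_apply,
        _root_.add_apply, ContinuousLinearMap.comp_apply,
        ContinuousLinearMap.id_apply, smul_sub, smul_smul, mul_inv_cancel₀ hm.ne', one_smul]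
      abel
    rw [h1]
    refine (norm_add_le _ _).trans_lt ?_
    have h2 : ‖(A - ContinuousLinearMap.id ℝ Y).comp T‖ ≤ r / (2 * ‖T‖) * ‖T‖ := by
      refine (ContinuousLinearMap.opNorm_comp_le _ _).trans ?_
      gcongr
    have h3 : r / (2 * ‖T‖) * ‖T‖ = r / 2 := by field_simp
    have h4 : ‖m • (T' - m⁻¹ • A.comp T)‖ ≤ r / 4 := by
      rw [norm_smul, Real.norm_eq_abs, abs_of_pos hm]
      calc m * ‖T' - m⁻¹ • A.comp T‖ ≤ m * (r / (4 * m)) := by gcongr
        _ = r / 4 := by field_simp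
    linarith
  · rw [_root_.smul_apply, norm_smul, norm_smul, hx₀']

/-- Invariance of the good points under positive scaling. -/
theorem GoodX.smul {n M : ℕ} {a : ℕ → EuclideanSpace ℝ (Fin n)} {δ : ℕ → ℝ}
    {b : Fin M → EuclideanSpace ℝ (Fin n)} {x : EuclideanSpace ℝ (Fin n)} (h : GoodX a δ b x)
    {t : ℝ} (ht : 0 < t) : GoodX a δ b (t • x) := by
  obtain ⟨h1, ⟨k₀, h2⟩, h3, h4⟩ := h
  refine ⟨fun k hk => ?_, ⟨k₀, fun k hk hak => ?_⟩, fun i hi => ?_, fun i j hij => ?_⟩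
  · rw [inner_smul_right]
    exact mul_ne_zero ht.ne' (h1 k hk)
  · rw [inner_smul_right, norm_smul, abs_mul, Real.norm_eq_abs, abs_of_pos ht]
    have := h2 k hk hak
    calc δ k * (t * ‖x‖) = t * (δ k * ‖x‖) := by ring
      _ ≤ t * |inner ℝ (a k) x| := by gcongr
  · rw [inner_smul_right]
    exact mul_ne_zero ht.ne' (h3 i hi)
  · refine h4 i j ?_
    rw [inner_smul_right, inner_smul_right, abs_mul, abs_mul] at hij
    exact mul_left_cancel₀ (abs_pos.2 ht.ne').ne' hij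

theorem final2 (hPoly : GPoly.{v}) (hDelta : GDelta) (hEx : GEx) (hStr : GStrict)
    (hFlat : GFlat) (hCone : GCone.{0}) (hFin : Final1.{u, 0}) : Final2.{u, v} := by
  intro Y₀ _ _ _ _ ε hε
  set n := Module.finrank ℝ Y₀ with hn
  have hn1 : 1 ≤ n := Module.finrank_pos
  let L₀ : EuclideanSpace ℝ (Fin n) ≃L[ℝ] Y₀ := (toEuclidean (E := Y₀)).symm
  obtain ⟨M, b, hb⟩ := hPoly n Y₀ L₀ ε hε
  let a : ℕ → EuclideanSpace ℝ (Fin n) := TopologicalSpace.denseSeq _
  have ha : DenseRange a := TopologicalSpace.denseRange_denseSeq _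
  obtain ⟨δ, hδ, hbad⟩ := hDelta n M a b hn1
  set K : ℝ := ‖(L₀.symm : Y₀ →L[ℝ] EuclideanSpace ℝ (Fin n))‖ with hK
  have hK0 : 0 ≤ K := norm_nonneg _
  set η : ℝ := min 1 (ε / (2 * (K + 1))) with hη
  have hη0 : 0 < η := lt_min one_pos (by positivity)
  have hη1 : η ≤ 1 := min_le_left _ _
  have hηK : 2 * η * K ≤ ε := by
    have h1 : η ≤ ε / (2 * (K + 1)) := min_le_right _ _
    rw [le_div_iff₀ (by positivity)] at h1
    nlinarith
  set q : ℕ → ℝ := fun k => δ k / (1 + ‖a k‖) with hq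
  have hq0 : ∀ k, 0 < q k := fun k => div_pos (hδ k).1 (by positivity)
  have hq1 : ∀ k, q k ≤ 1 := fun k => by
    rw [hq]
    simp only
    rw [div_le_one (by positivity)]
    have := norm_nonneg (a k)
    linarith [(hδ k).2]
  have hqa : ∀ k, q k * ‖a k‖ ≤ 1 := fun k => by
    have h1 : q k ≤ 1 / (1 + ‖a k‖) := by
      rw [hq]
      simp only
      gcongr
      exact (hδ k).2
    have h2 := norm_nonneg (a k)
    calc q k * ‖a k‖ ≤ 1 / (1 + ‖a k‖) * ‖a k‖ := by gcongr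
      _ ≤ 1 := by
        rw [one_div, inv_mul_le_iff₀ (by positivity)]
        linarith
  let c : ℕ → ℝ := fun k => η * ((1 / 2) ^ k * q k ^ (k + 1))
  have hc0 : ∀ k, 0 < c k := fun k => by
    have := hq0 k
    positivity
  have hc1 : ∀ k, c k ≤ (1 / 2) ^ k * (δ k / (1 + ‖a k‖)) ^ (k + 1) := fun k => by
    have h1 : 0 ≤ (1 / 2 : ℝ) ^ k * q k ^ (k + 1) := by
      have := hq0 k
      positivity
    calc c k = η * ((1 / 2) ^ k * q k ^ (k + 1)) := rfl
      _ ≤ 1 * ((1 / 2) ^ k * q k ^ (k + 1)) := by gcongr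
      _ = _ := by rw [one_mul]
  have hca : ∀ k, c k * ‖a k‖ ≤ η * (1 / 2) ^ k := fun k => by
    have h0 := hq0 k
    have h2 := norm_nonneg (a k)
    calc c k * ‖a k‖ = η * (1 / 2) ^ k * (q k ^ k * (q k * ‖a k‖)) := by
          simp only [c]
          ring
      _ ≤ η * (1 / 2) ^ k * (1 * 1) := by
          gcongr
          · exact pow_le_one₀ h0.le (hq1 k)
          · exact hqa k
      _ = η * (1 / 2) ^ k := by ring
  have hgeo : Summable (fun k : ℕ => η * (1 / 2 : ℝ) ^ k) :=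
    summable_geometric_two.mul_left η
  have hcs : Summable (fun k => c k * ‖a k‖) :=
    Summable.of_nonneg_of_le (fun k => mul_nonneg (hc0 k).le (norm_nonneg _)) hca hgeo
  have hcsum : ∑' k, c k * ‖a k‖ ≤ 2 * η := by
    calc ∑' k, c k * ‖a k‖ ≤ ∑' k : ℕ, η * (1 / 2 : ℝ) ^ k := hcs.tsum_le_tsum hca hgeo
      _ = η * 2 := by rw [tsum_mul_left, tsum_geometric_two]
      _ = 2 * η := by ring
  have hser : ∀ x : EuclideanSpace ℝ (Fin n), 0 ≤ ∑' k, c k * |inner ℝ (a k) x| ∧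
      ∑' k, c k * |inner ℝ (a k) x| ≤ ε * ‖L₀ x‖ := by
    intro x
    have hle : ∀ k, c k * |inner ℝ (a k) x| ≤ (c k * ‖a k‖) * ‖x‖ := fun k => by
      have h1 : |(inner ℝ (a k) x : ℝ)| ≤ ‖a k‖ * ‖x‖ := abs_real_inner_le_norm (a k) x
      rw [mul_assoc (c k)]
      exact mul_le_mul_of_nonneg_left h1 (hc0 k).le
    have hs1 : Summable (fun k => (c k * ‖a k‖) * ‖x‖) := hcs.mul_right _
    have hs2 : Summable (fun k => c k * |inner ℝ (a k) x|) :=
      Summable.of_nonneg_of_le (fun k => mul_nonneg (hc0 k).le (abs_nonneg _)) hle hs1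
    refine ⟨tsum_nonneg (fun k => mul_nonneg (hc0 k).le (abs_nonneg _)), ?_⟩
    have hx : ‖x‖ ≤ K * ‖L₀ x‖ := by
      have h1 := (L₀.symm : Y₀ →L[ℝ] EuclideanSpace ℝ (Fin n)).le_opNorm (L₀ x)
      have h2 : (L₀.symm : Y₀ →L[ℝ] EuclideanSpace ℝ (Fin n)) (L₀ x) = x := by
        simp
      rw [h2] at h1
      exact h1
    have hxn := norm_nonneg x
    have hLx := norm_nonneg (L₀ x)
    calc ∑' k, c k * |inner ℝ (a k) x| ≤ ∑' k, (c k * ‖a k‖) * ‖x‖ := hs2.tsum_le_tsum hle hs1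
      _ = (∑' k, c k * ‖a k‖) * ‖x‖ := by rw [tsum_mul_right]
      _ ≤ (2 * η) * (K * ‖L₀ x‖) := by gcongr
      _ = (2 * η * K) * ‖L₀ x‖ := by ring
      _ ≤ ε * ‖L₀ x‖ := by gcongr
  obtain ⟨Y, i1, i2, L, hL⟩ := hEx n M a c b hc0 ha hcs
  have : FiniteDimensional ℝ Y := LinearEquiv.finiteDimensional L
  let Lc : EuclideanSpace ℝ (Fin n) ≃L[ℝ] Y := L.toContinuousLinearEquiv
  let S : Y₀ ≃L[ℝ] Y := L₀.symm.trans Lc
  refine ⟨Y, i1, i2, S, ?_, hStr n M a c b hc0 ha hcs Y L hL, ?_⟩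
  · intro y
    have h1 : S y = L (L₀.symm y) := rfl
    have h2 := hb (L₀.symm y)
    have h3 := hser (L₀.symm y)
    rw [ContinuousLinearEquiv.apply_symm_apply] at h2 h3
    rw [h1, hL]
    unfold nrm
    constructor
    · linarith [h2.1, h3.1]
    · linarith [h2.2, h3.2]
  · letI : MeasurableSpace Y := borel Y
    have : BorelSpace Y := ⟨rfl⟩
    apply hFin Y
    have hfr : Module.finrank ℝ Y = n := by
      rw [← L.finrank_eq, finrank_euclideanSpace, Fintype.card_fin]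
    let μ : Measure Y := Measure.map Lc volume
    have : μ.IsAddHaarMeasure := Lc.isAddHaarMeasure_map volume
    have hμ : μ (L '' {x | ¬ GoodX a δ b x}) = 0 := by
      have h1 : μ = Measure.map (Lc.toHomeomorph.toMeasurableEquiv) volume := rfl
      rw [h1, MeasurableEquiv.map_apply]
      have h2 : (Lc.toHomeomorph.toMeasurableEquiv) ⁻¹' (L '' {x | ¬ GoodX a δ b x})
          = {x | ¬ GoodX a δ b x} := by
        have h3 : (Lc.toHomeomorph.toMeasurableEquiv : EuclideanSpace ℝ (Fin n) → Y) = L := rfl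
        rw [h3]
        exact Set.preimage_image_eq _ L.injective
      rw [h2]
      exact hbad
    have h4 := hCone Y μ (L '' {x | ¬ GoodX a δ b x}) (by rw [hfr]; exact hn1) (by
      rintro _ ⟨x, hx, rfl⟩ t ht
      refine ⟨t • x, ?_, map_smul L t x⟩
      intro hg
      apply hx
      have h5 := hg.smul (inv_pos.2 ht)
      rwa [smul_smul, inv_mul_cancel₀ ht.ne', one_smul] at h5) hμ
    refine measure_mono_null ?_ h4
    rintro p ⟨hp, hnot⟩
    refine ⟨⟨L.symm p, ?_, L.apply_symm_apply p⟩, mem_sphere_zero_iff_norm.2 hp⟩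
    intro hg
    apply hnot
    refine ⟨max 1 (2 * ((Module.finrank ℝ Y : ℝ) - 1) + 1), ?_, ?_⟩
    · exact lt_of_lt_of_le (lt_add_one _) (le_max_right _ _)
    · have h6 := hFlat n M a c δ b hδ (fun k => ⟨hc0 k, hc1 k⟩) Y L hL (L.symm p)
        (by rw [L.apply_symm_apply]; exact hp) hg
        (max 1 (2 * ((Module.finrank ℝ Y : ℝ) - 1) + 1)) (le_max_left _ _)
      rwa [L.apply_symm_apply] at h6

end Pool.Agent.Helper18.PB
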