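import Mathlib
import Pool.Agent.Helper18.PB.Defs
import Pool.Agent.Helper18.PB.A7
import Pool.Agent.Helper18.PB.Asm
import Pool.Agent.Helper90.PB.A1
import Pool.Agent.Helper56.PB.A2
import Pool.Agent.Helper49.PB.A3
import Pool.Agent.Helper62.PB.A4
import Pool.Agent.Helper29.PB.A5
import Pool.Agent.Helper98.PB.A6
import Pool.Agent.Helper13.PB.A8
import Pool.Agent.Helper59.PB.E1
import Pool.Agent.Helper4.PB.E2
import Pool.Agent.Helper19.PB.F1
import Pool.Agent.Helper84.PB.F2
import Pool.Agent.Helper64.PB.F3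
import Pool.Agent.Helper33.PB.F4
import Pool.Agent.Helper15.PB.F5
import Pool.Agent.Helper94.PB.Poly

/-!
# Property B: the final theorems without hypotheses
-/

set_option autoImplicit false

namespace Pool.Agent.Helper18.PB

universe u v

theorem gcyc : GCyc.{u} := Helper62.PB.a4 (Helper49.PB.a3 (Helper56.PB.a2 Helper90.PB.a1))

theorem gs : GS.{u} := a7 gcyc Helper29.PB.a5 Helper98.PB.a6

theorem main1 : Final1.{u, v} :=
  final1 (Helper4.PB.e2 Helper59.PB.e1) (Helper13.PB.a8 gs)

theorem main2 : Final2.{u, v} :=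
  final2 Helper94.PB.f6 Helper15.PB.f5 Helper84.PB.f2 Helper64.PB.f3 Helper33.PB.f4 Helper19.PB.f1
    main1

end Pool.Agent.Helper18.PB
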