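import Pool.Agent.Helper18.PB.Seq

/-! Packet A7: limits of the iteration. -/

set_option autoImplicit false

open MeasureTheory Measure Filter Topology

namespace Pool.Agent.Helper18.PB

universe u

variable {X : Type u} [NormedAddCommGroup X] [NormedSpace ℝ X]

theorem G_dist {V : Type u} [NormedAddCommGroup V] (G : ℕ → V) (E : ℕ → ℝ)
    (hE : ∀ l, 0 ≤ E l ∧ E (l + 1) ≤ E l / 2) (hG : ∀ l, ‖G (l + 1) - G l‖ ≤ E l) (c : ℕ) :
    ∀ l, c ≤ l → ‖G l - G c‖ ≤ 2 * E c - 2 * E l := by
  intro l hl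
  induction l, hl using Nat.le_induction with
  | base => simp
  | succ l hl ih =>
    have h1 : G (l + 1) - G c = (G (l + 1) - G l) + (G l - G c) := by abel
    rw [h1]
    have h2 := norm_add_le (G (l + 1) - G l) (G l - G c)
    have h3 := hG l
    have h4 := (hE l).2
    linarith

theorem E_geom (E : ℕ → ℝ) (hE : ∀ l, 0 ≤ E l ∧ E (l + 1) ≤ E l / 2) (c : ℕ) :
    E c ≤ E 0 * (1 / 2) ^ c := by
  induction c with
  | zero => simp
  | succ c ih =>
    have := (hE c).2
    rw [pow_succ]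
    linarith

theorem E_tendsto (E : ℕ → ℝ) (hE : ∀ l, 0 ≤ E l ∧ E (l + 1) ≤ E l / 2) :
    Tendsto E atTop (𝓝 0) := by
  have h1 : Tendsto (fun c : ℕ => E 0 * (1 / 2 : ℝ) ^ c) atTop (𝓝 0) := by
    have := (tendsto_pow_atTop_nhds_zero_of_lt_one (r := (1 / 2 : ℝ)) (by norm_num)
      (by norm_num)).const_mul (E 0)
    simpa using this
  exact squeeze_zero (fun c => (hE c).1) (E_geom E hE) h1

theorem cauchy_of_E {V : Type u} [NormedAddCommGroup V] (G : ℕ → V) (E : ℕ → ℝ)
    (hE : ∀ l, 0 ≤ E l ∧ E (l + 1) ≤ E l / 2) (hG : ∀ l, ‖G (l + 1) - G l‖ ≤ E l) :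
    CauchySeq G := by
  apply cauchySeq_of_le_tendsto_0 (fun c => 4 * E c)
  · intro n m N hn hm
    have h1 := G_dist G E hE hG N n hn
    have h2 := G_dist G E hE hG N m hm
    rw [dist_eq_norm]
    have h3 : G n - G m = (G n - G N) - (G m - G N) := by abel
    rw [h3]
    have h4 := norm_sub_le (G n - G N) (G m - G N)
    have h5 := (hE n).1
    have h6 := (hE m).1
    linarith
  · have := (E_tendsto E hE).const_mul 4
    simpa using this

theorem limits [CompleteSpace X] {m : ℕ} (F : ℕ → X →L[ℝ] ℝ) (G ω : ℕ → Fin m → X →L[ℝ] ℝ)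
    (x : ℕ → X) (t : ℕ → Fin m → ℝ) (θ E sg : ℕ → ℝ)
    (hF : ∀ l, F (l + 1) = F l + ∑ k, t l k • (G l k - ω l k))
    (ht : ∀ l k, 0 ≤ t l k ∧ t l k ≤ θ l / 4) (hω : ∀ l k, ‖ω l k‖ ≤ E l)
    (hG : ∀ l k, ‖G (l + 1) k - G l k‖ ≤ E l)
    (hE : ∀ l, 0 ≤ E l ∧ E (l + 1) ≤ E l / 2) (hθ : ∀ l, 0 ≤ θ l ∧ θ (l + 1) ≤ θ l / 4)
    (hx : ∀ l, ‖x (l + 1) - x l‖ ≤ sg l) (hsg : Summable sg) :
    ∃ (H : X →L[ℝ] ℝ) (K : Fin m → X →L[ℝ] ℝ) (z : X), Tendsto F atTop (𝓝 H) ∧
      Tendsto x atTop (𝓝 z) ∧ (∀ c k, ‖K k - G c k‖ ≤ 2 * E c) ∧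
      ∀ c, ∃ (T : Fin m → ℝ) (r : X →L[ℝ] ℝ), H = F c + (∑ k, T k • G c k) - r ∧
        (∀ k, 0 ≤ T k ∧ T k ≤ θ c / 3) ∧ ‖r‖ ≤ m * (θ c * (2 * E c)) := by
  classical
  -- the points
  have hxc : CauchySeq x := by
    apply cauchySeq_of_summable_dist
    refine Summable.of_nonneg_of_le (fun _ => dist_nonneg) (fun n => ?_) hsg
    rw [dist_comm, dist_eq_norm]
    exact hx n
  obtain ⟨z, hz⟩ := cauchySeq_tendsto_of_complete hxc
  -- the functionals `G`
  have hGc : ∀ k, ∃ L, Tendsto (fun l => G l k) atTop (𝓝 L) := fun k =>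
    cauchySeq_tendsto_of_complete (cauchy_of_E (fun l => G l k) E hE (fun l => hG l k))
  choose K hK using hGc
  have hKd : ∀ c k, ‖K k - G c k‖ ≤ 2 * E c := by
    intro c k
    have h1 : Tendsto (fun l => ‖G l k - G c k‖) atTop (𝓝 ‖K k - G c k‖) :=
      ((hK k).sub_const _).norm
    refine le_of_tendsto h1 ?_
    filter_upwards [eventually_ge_atTop c] with l hl
    have h2 := G_dist (fun l => G l k) E hE (fun l => hG l k) c l hl
    have h3 := (hE l).1
    linarith
  -- the sums of the tilts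
  set Tt : Fin m → ℕ → ℝ := fun k l => ∑ j ∈ Finset.range l, t j k with hTt
  have hTs : ∀ k l, Tt k (l + 1) = Tt k l + t l k := fun k l => by
    simp only [hTt]; rw [Finset.sum_range_succ]
  have hTmono : ∀ k, Monotone (Tt k) := fun k => monotone_nat_of_le_succ fun l => by
    rw [hTs]; linarith [(ht l k).1]
  have hTd : ∀ k c l, c ≤ l → Tt k l - Tt k c ≤ (θ c - θ l) / 3 := by
    intro k c l hl
    induction l, hl using Nat.le_induction with
    | base => simp
    | succ l hl ih =>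
      rw [hTs]
      have h1 := (ht l k).2
      have h2 := (hθ l).2
      linarith
  have hTlim : ∀ k, ∃ L, Tendsto (Tt k) atTop (𝓝 L) := by
    intro k
    refine ⟨_, tendsto_atTop_ciSup (hTmono k) ⟨θ 0 / 3, ?_⟩⟩
    rintro _ ⟨l, rfl⟩
    have h1 := hTd k 0 l (Nat.zero_le _)
    have h2 : Tt k 0 = 0 := by simp [hTt]
    have h3 := (hθ l).1
    linarith
  choose Ti hTi using hTlim
  have hTi1 : ∀ k c, Tt k c ≤ Ti k := fun k c => (hTmono k).ge_of_tendsto (hTi k) c
  have hTi2 : ∀ k c, Ti k - Tt k c ≤ θ c / 3 := by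
    intro k c
    have h1 : Tendsto (fun l => Tt k l - Tt k c) atTop (𝓝 (Ti k - Tt k c)) :=
      (hTi k).sub_const _
    refine le_of_tendsto h1 ?_
    filter_upwards [eventually_ge_atTop c] with l hl
    have h2 := hTd k c l hl
    have h3 := (hθ l).1
    linarith
  -- comparison of `F c` and `F l`
  have hcomp : ∀ c l, c ≤ l →
      ‖F c + (∑ k, (Tt k l - Tt k c) • G c k) - F l‖ ≤ 2 * E c * ∑ k, (Tt k l - Tt k c) := by
    intro c l hl
    induction l, hl using Nat.le_induction with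
    | base => simp
    | succ l hl ih =>
      have h1 : F c + (∑ k, (Tt k (l + 1) - Tt k c) • G c k) - F (l + 1)
          = (F c + (∑ k, (Tt k l - Tt k c) • G c k) - F l)
            + ∑ k, t l k • (G c k - G l k + ω l k) := by
        rw [hF l]
        have h2 : ∑ k, (Tt k (l + 1) - Tt k c) • G c k
            = (∑ k, (Tt k l - Tt k c) • G c k) + ∑ k, t l k • G c k := by
          rw [← Finset.sum_add_distrib]
          refine Finset.sum_congr rfl fun k _ => ?_
          rw [hTs]
          module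
        have h3 : ∑ k, t l k • (G c k - G l k + ω l k)
            = (∑ k, t l k • G c k) - ∑ k, t l k • (G l k - ω l k) := by
          rw [← Finset.sum_sub_distrib]
          refine Finset.sum_congr rfl fun k _ => ?_
          module
        rw [h2, h3]
        abel
      rw [h1]
      have h4 : ‖∑ k, t l k • (G c k - G l k + ω l k)‖ ≤ ∑ k, 2 * E c * t l k := by
        refine norm_sum_le_of_le _ fun k _ => ?_
        rw [norm_smul, Real.norm_of_nonneg (ht l k).1, mul_comm]
        apply mul_le_mul_of_nonneg_right _ (ht l k).1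
        have h5 := norm_add_le (G c k - G l k) (ω l k)
        have h6 := G_dist (fun l => G l k) E hE (fun l => hG l k) c l hl
        rw [norm_sub_rev] at h6
        have h7 := hω l k
        have h8 := (hE l).1
        linarith
      have h9 : ∑ k, (Tt k (l + 1) - Tt k c) = (∑ k, (Tt k l - Tt k c)) + ∑ k, t l k := by
        rw [← Finset.sum_add_distrib]
        refine Finset.sum_congr rfl fun k _ => ?_
        rw [hTs]; ring
      rw [h9, mul_add]
      rw [← Finset.mul_sum] at h4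
      exact (norm_add_le _ _).trans (add_le_add ih h4)
  -- convergence of `F`
  have hFc : CauchySeq F := by
    have hb : ∀ c l, c ≤ l →
        ‖F l - F c‖ ≤ ∑ k, θ c / 3 * (‖G c k‖ + 2 * E c) := by
      intro c l hl
      have h1 : F l - F c = (∑ k, (Tt k l - Tt k c) • G c k)
          - (F c + (∑ k, (Tt k l - Tt k c) • G c k) - F l) := by abel
      rw [h1]
      refine (norm_sub_le _ _).trans ?_
      have h2 := hcomp c l hl
      have h3 : ‖∑ k, (Tt k l - Tt k c) • G c k‖ ≤ ∑ k, (Tt k l - Tt k c) * ‖G c k‖ := by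
        refine norm_sum_le_of_le _ fun k _ => ?_
        rw [norm_smul, Real.norm_of_nonneg (sub_nonneg.2 (hTmono k hl))]
      calc _ ≤ (∑ k, (Tt k l - Tt k c) * ‖G c k‖) + 2 * E c * ∑ k, (Tt k l - Tt k c) :=
            add_le_add h3 h2
        _ = ∑ k, (Tt k l - Tt k c) * (‖G c k‖ + 2 * E c) := by
            rw [Finset.mul_sum, ← Finset.sum_add_distrib]
            refine Finset.sum_congr rfl fun k _ => ?_
            ring
        _ ≤ _ := by
            refine Finset.sum_le_sum fun k _ => ?_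
            apply mul_le_mul_of_nonneg_right
            · have h4 := hTd k c l hl
              have h5 := (hθ l).1
              linarith
            · have := (hE c).1
              positivity
    have hb2 : ∀ c, ∑ k, θ c / 3 * (‖G c k‖ + 2 * E c)
        ≤ θ c * ∑ k, (‖G 0 k‖ + 4 * E 0) := by
      intro c
      rw [Finset.mul_sum]
      refine Finset.sum_le_sum fun k _ => ?_
      have h1 := (hθ c).1
      have h2 : ‖G c k‖ ≤ ‖G 0 k‖ + 2 * E 0 := by
        have h3 := G_dist (fun l => G l k) E hE (fun l => hG l k) 0 c (Nat.zero_le _)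
        have h4 : G c k = (G c k - G 0 k) + G 0 k := by abel
        have h5 := (hE c).1
        calc ‖G c k‖ = ‖(G c k - G 0 k) + G 0 k‖ := by rw [← h4]
          _ ≤ _ := by
            refine (norm_add_le _ _).trans ?_
            linarith
      have h3 : E c ≤ E 0 := by
        have h4 := E_geom E hE c
        have h5 : (1 / 2 : ℝ) ^ c ≤ 1 := pow_le_one₀ (by norm_num) (by norm_num)
        nlinarith [(hE 0).1]
      have h6 : 0 ≤ ‖G c k‖ + 2 * E c := by
        have := (hE c).1
        positivity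
      nlinarith
    have hθt : Tendsto θ atTop (𝓝 0) := by
      apply E_tendsto
      intro l
      exact ⟨(hθ l).1, (hθ l).2.trans (by linarith [(hθ l).1])⟩
    apply cauchySeq_of_le_tendsto_0 (fun c => 2 * (θ c * ∑ k, (‖G 0 k‖ + 4 * E 0)))
    · intro n p q hn hp
      rw [dist_eq_norm]
      have h3 : F n - F p = (F n - F q) - (F p - F q) := by abel
      rw [h3]
      have h4 := (hb q n hn).trans (hb2 q)
      have h5 := (hb q p hp).trans (hb2 q)
      have h6 := norm_sub_le (F n - F q) (F p - F q)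
      linarith
    · have := (hθt.mul_const (∑ k, (‖G 0 k‖ + 4 * E 0))).const_mul 2
      simpa using this
  obtain ⟨H, hH⟩ := cauchySeq_tendsto_of_complete hFc
  refine ⟨H, K, z, hH, hz, hKd, fun c => ?_⟩
  refine ⟨fun k => Ti k - Tt k c, F c + (∑ k, (Ti k - Tt k c) • G c k) - H, by abel,
    fun k => ⟨sub_nonneg.2 (hTi1 k c), hTi2 k c⟩, ?_⟩
  have h1 : Tendsto (fun l => ‖F c + (∑ k, (Tt k l - Tt k c) • G c k) - F l‖) atTop
      (𝓝 ‖F c + (∑ k, (Ti k - Tt k c) • G c k) - H‖) := by
    refine Tendsto.norm (Tendsto.sub (tendsto_const_nhds.add ?_) hH)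
    exact tendsto_finsetSum _ fun k _ => ((hTi k).sub_const _).smul_const _
  have h2 : Tendsto (fun l => 2 * E c * ∑ k, (Tt k l - Tt k c)) atTop
      (𝓝 (2 * E c * ∑ k, (Ti k - Tt k c))) :=
    (tendsto_finsetSum _ fun k _ => (hTi k).sub_const _).const_mul _
  have h3 : ‖F c + (∑ k, (Ti k - Tt k c) • G c k) - H‖ ≤ 2 * E c * ∑ k, (Ti k - Tt k c) := by
    refine le_of_tendsto_of_tendsto h1 h2 ?_
    filter_upwards [eventually_ge_atTop c] with l hl
    exact hcomp c l hl
  refine h3.trans ?_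
  have h4 : ∑ k, (Ti k - Tt k c) ≤ ∑ _k : Fin m, θ c / 3 :=
    Finset.sum_le_sum fun k _ => hTi2 k c
  rw [Finset.sum_const, Finset.card_univ, Fintype.card_fin, nsmul_eq_mul] at h4
  have h5 := (hE c).1
  have h6 := (hθ c).1
  have h7 : 0 ≤ ∑ k, (Ti k - Tt k c) := Finset.sum_nonneg fun k _ => sub_nonneg.2 (hTi1 k c)
  calc 2 * E c * ∑ k, (Ti k - Tt k c) ≤ 2 * E c * (m * (θ c / 3)) := by
        apply mul_le_mul_of_nonneg_left h4 (by linarith)
    _ ≤ m * (θ c * (2 * E c)) := by
        have h8 : (0 : ℝ) ≤ m := Nat.cast_nonneg m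
        have h9 : 0 ≤ m * (θ c * E c) := by positivity
        nlinarith

end Pool.Agent.Helper18.PB
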