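import Pool.Agent.Helper18.PB.Defs

/-! Packet A7: the iteration (algebra of the parameters, dependent choice). -/

set_option autoImplicit false

open MeasureTheory Measure Filter Topology

namespace Pool.Agent.Helper18.PB

universe u

theorem dep_choice {S : Type u} (P : ℕ → S → Prop) (R : ℕ → S → S → Prop) (s0 : S) (h0 : P 0 s0)
    (hstep : ∀ c s, P c s → ∃ s', P (c + 1) s' ∧ R c s s') :
    ∃ w : ℕ → S, w 0 = s0 ∧ (∀ c, P c (w c)) ∧ ∀ c, R c (w c) (w (c + 1)) := by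
  classical
  choose! nx h1 h2 using hstep
  let w : ℕ → S := fun n => Nat.rec s0 (fun c s => nx c s) n
  have hP : ∀ c, P c (w c) := by
    intro c
    induction c with
    | zero => exact h0
    | succ c ih => exact h1 c _ ih
  exact ⟨w, rfl, hP, fun c => h2 c _ (hP c)⟩

theorem PiP_succ (M : ℕ) (N : ℕ → ℕ) (σ : ℕ → ℝ) (c : ℕ) :
    PiP M N σ (c + 1) = PiP M N σ c * (192 * 54 ^ M / (N c * σ c ^ M)) := by
  unfold PiP; rw [Finset.prod_range_succ]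

theorem ThP_succ (M : ℕ) (N : ℕ → ℕ) (σ : ℕ → ℝ) (c : ℕ) :
    ThP M N σ (c + 1) = ThP M N σ c * (1 / (32 * N c) * (σ c / (9 * (N c : ℝ) ^ 2)) ^ M) := by
  unfold ThP; rw [Finset.prod_range_succ]

theorem PiP_zero (M : ℕ) (N : ℕ → ℕ) (σ : ℕ → ℝ) : PiP M N σ 0 = 1 := by simp [PiP]

theorem ThP_zero (M : ℕ) (N : ℕ → ℕ) (σ : ℕ → ℝ) : ThP M N σ 0 = 1 := by simp [ThP]

theorem PiP_pos (M : ℕ) (N : ℕ → ℕ) (σ : ℕ → ℝ) (hN : ∀ c, 1 ≤ N c) (hσ : ∀ c, 0 < σ c) (c : ℕ) :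
    0 < PiP M N σ c := by
  unfold PiP
  refine Finset.prod_pos fun l _ => ?_
  have h1 : (0 : ℝ) < N l := by exact_mod_cast hN l
  have h2 := hσ l
  positivity

theorem ThP_pos (M : ℕ) (N : ℕ → ℕ) (σ : ℕ → ℝ) (hN : ∀ c, 1 ≤ N c) (hσ : ∀ c, 0 < σ c) (c : ℕ) :
    0 < ThP M N σ c := by
  unfold ThP
  refine Finset.prod_pos fun l _ => ?_
  have h1 : (0 : ℝ) < N l := by exact_mod_cast hN l
  have h2 := hσ l
  positivity

theorem ThP_quarter (M : ℕ) (N : ℕ → ℕ) (σ : ℕ → ℝ) (hN : ∀ c, 1 ≤ N c)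
    (hσ : ∀ c, 0 < σ c ∧ σ c ≤ 1) (c : ℕ) :
    ThP M N σ (c + 1) ≤ ThP M N σ c / 4 := by
  rw [ThP_succ, div_eq_mul_inv]
  have h0 := ThP_pos M N σ hN (fun c => (hσ c).1) c
  apply mul_le_mul_of_nonneg_left _ h0.le
  have h1 : (1 : ℝ) ≤ N c := by exact_mod_cast hN c
  have h2 : 1 / (32 * (N c : ℝ)) ≤ 1 / 4 := by
    apply one_div_le_one_div_of_le (by norm_num)
    linarith
  have h3 : (σ c / (9 * (N c : ℝ) ^ 2)) ^ M ≤ 1 := by
    apply pow_le_one₀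
    · have := (hσ c).1; positivity
    · rw [div_le_one (by positivity)]
      have := (hσ c).2
      nlinarith
  have h4 : 0 ≤ (σ c / (9 * (N c : ℝ) ^ 2)) ^ M := by
    have := (hσ c).1; positivity
  calc 1 / (32 * (N c : ℝ)) * (σ c / (9 * (N c : ℝ) ^ 2)) ^ M ≤ 1 / 4 * 1 := by
        apply mul_le_mul h2 h3 h4 (by norm_num)
    _ = 4⁻¹ := by norm_num

/-- the recursion for `e_c = θ_c v_c` -/
theorem e_rec (M : ℕ) (N : ℕ) (σ : ℝ) (hN : 1 ≤ N) (hσ : 0 < σ) :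
    (1 / (32 * (N : ℝ)) * (σ / (9 * (N : ℝ) ^ 2)) ^ M) * (192 * 54 ^ M / (N * σ ^ M))
      = (6 / (N : ℝ) ^ 2) ^ (M + 1) := by
  have h1 : (0 : ℝ) < N := by exact_mod_cast hN
  rw [div_pow, div_pow, mul_pow, pow_succ]
  have h2 : (54 : ℝ) ^ M = 9 ^ M * 6 ^ M := by rw [← mul_pow]; norm_num
  rw [h2]
  field_simp
  ring

end Pool.Agent.Helper18.PB
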